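import Pool.Agent.H70.Sq4

namespace Pool.Agent.Results.MP_a87126_al.Sharp

/-- `m G`: the least order of a finite group `H` with an injective homomorphism from `G`
such that every element of the image of `G` is a square in `H`. -/
noncomputable def m (G : Type) [Group G] : ℕ :=
  sInf {n : ℕ | ∃ (H : Type) (_ : Group H) (_ : Finite H) (ι : G →* H),
    Function.Injective ι ∧ (∀ g, ∃ h : H, h ^ 2 = ι g) ∧ Nat.card H = n}

open Pool.Agent.H70

lemma m_le (G : Type) [Group G] [Finite G] : m G ≤ 2 * Nat.card G ^ 2 :=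
  Nat.sInf_le (Sq4.upper G)

lemma extremal (N : ℕ) : ∃ (G : Type) (_ : Group G) (_ : Finite G),
    N ≤ Nat.card G ∧ m G = 2 * Nat.card G ^ 2 := by
  obtain ⟨q, hq, hN⟩ := Sq3.good N
  have hpos : ∀ k ∈ Finset.range 7, 0 < q k := fun k hk => (hq.prime k (Finset.mem_range.mp hk)).pos
  have hc : N ≤ Nat.card (Sq4.GG q) := by
    rw [Sq4.card_GG]
    have := Nat.le_of_dvd (Finset.prod_pos hpos)
      (Finset.dvd_prod_of_mem q (show 0 ∈ Finset.range 7 by simp))
    omega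
  have hfin : Finite (Sq4.GG q) := by
    apply Nat.finite_of_card_ne_zero
    rw [Sq4.card_GG]
    have := Finset.prod_pos hpos
    omega
  refine ⟨Sq4.GG q, inferInstance, hfin, hc, le_antisymm (m_le _) ?_⟩
  obtain ⟨H, _, _, ι, h1, h2, h3⟩ := Nat.sInf_mem (s := {n : ℕ | ∃ (H : Type) (_ : Group H)
    (_ : Finite H) (ι : Sq4.GG q →* H), Function.Injective ι ∧ (∀ g, ∃ h : H, h ^ 2 = ι g) ∧
      Nat.card H = n}) ⟨_, Sq4.upper _⟩
  unfold m
  rw [← h3]
  exact Sq4.lower hq ι h1 h2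

theorem result :
    (∀ N : ℕ, ∃ (G : Type) (_ : Group G) (_ : Finite G),
      N ≤ Nat.card G ∧ m G = 2 * Nat.card G ^ 2) ∧
    IsLeast {c : ℝ | ∃ N : ℕ, ∀ (G : Type) [Group G] [Finite G], N ≤ Nat.card G →
      (m G : ℝ) ≤ c * (Nat.card G : ℝ) ^ 2} 2 := by
  refine ⟨extremal, ⟨0, fun G _ _ _ => by exact_mod_cast m_le G⟩, ?_⟩
  rintro c ⟨N, hN⟩
  obtain ⟨G, _, _, h1, h2⟩ := extremal N
  have h3 := hN G h1
  rw [h2] at h3
  push_cast at h3
  have : (0 : ℝ) < (Nat.card G : ℝ) ^ 2 := by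
    have : 0 < Nat.card G := Nat.card_pos
    positivity
  exact le_of_mul_le_mul_right h3 this

end Pool.Agent.Results.MP_a87126_al.Sharp
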